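import Pool.Agent.Work.MP_88b7aa_gt.D.C499.F0

/-! The class is done. -/

set_option autoImplicit false

namespace Pool.Agent.Work.MP_88b7aa_gt.D.C499

open Pool.Agent.Work.MP_88b7aa_gt.PQ
open Pool.Agent.Work.MP_88b7aa_gt.Kc

theorem g0 : CGood (KS (.ex 4) (.iv 9 0) (.iv 9 0)) H.k ⟨199032864766430, 0, 0, 0, 0, 8⟩ ⟨272953761595392, 0, 0, 8521215115264, 0, 0⟩ ⟨272953761595392, 0, 8521215115264, 0, 0, 0⟩ ⟨48596011450368, 0, 44744835072, 1466345455616, 0, 0⟩ :=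
  mC_good H_ok M0.k LB.nil LC.nil

theorem g1 : CGood (KS (.ex 4) (.iv 9 0) (.iv 9 0)) H.k ⟨199032864766430, 0, 0, 0, 0, 8⟩ ⟨272953761595392, 0, 0, 8521215115264, 0, 0⟩ ⟨272953761595392, 0, 8521215115264, 0, 0, 0⟩ ⟨0, 0, 0, 0, 0, 0⟩ :=
  mC_good H_ok M1.k LB.nil (LC.cons g0 LC.nil)

theorem done : Done (KS (.ex 4) (.iv 9 0) (.iv 9 0)) := fin (by decide +kernel) g1

end Pool.Agent.Work.MP_88b7aa_gt.D.C499
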